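import Mathlib
import Pool.Agent.H983R4.GL.F3
import Pool.Agent.H855R2.SF.Dir
import Pool.Agent.TH804.FM3

/-!
# Zeros or small values counted at ONE fixed scale give subconvex bounds for `GL(m)`

Let `π` run through (a family of) cuspidal representations of `GL(m)`, normalised as in the problem, and let
`Q = N ∏ (1 + |μ_j - iT|)` be the analytic conductor at height `T`, so that the mean number of zeros of `L(s, π)`
with ordinates in `[T, T + r]` is `(r / 2π) log Q`.  All windows below have a FIXED size.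

* **Boxes.**  Let `r < 1/4`, `0 ≤ δ ≤ 1`.  If the box `|Re s - 1/2| ≤ r`, `T ≤ Im s < T + r` contains at least
  `((1 - δ) r / 2π - o(1)) log Q` zeros, then `L(1/2 + iT, π) = O(Q^(μ + ε))` with
  `μ = δ/4 + (1 - δ) r (1 + log (1 / 4r))`.
* **Discs.**  Let `r < R ≤ 1/2`, `c ≥ 0`.  If the disc of radius `r` about `1/2 + iT` contains at least
  `(c - o(1)) log Q` zeros, then `μ = max(0, 1/4 - (π c / 4R) log (R / r))` is admissible.  In particular any
  positive proportion of zeros in the discs of any fixed radius `r < 1/2` gives a subconvex bound.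
* **Small values.**  There is `c > 0` such that, for `0 ≤ κ < 1/4`, `l > 0`, `0 < η ≤ 1`, if the disc of fixed
  radius `r ≤ c η min(l, 1/4 - κ)` about `1/2 + iT` contains at least `l r log Q` points with ordinates separated
  by `η / log Q` at which `|L(s, π)| ≤ Q^κ`, then `L(1/2 + iT, π) = O(Q^(1/4 - min(l, 1/4 - κ) / 8))`.
* **Equivalence.**  A subconvex bound (an exponent `< 1/4`) for the family is equivalent to the existence of
  such small values for one choice of `κ`, `l`, `η`, `r`.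

The starting result `DensityCriterionGLm` needs this information at arbitrarily small scales `r`.  Discs and small
values rest on the modules `Pool.Agent.TH804.FM` of the starting library.
-/

set_option autoImplicit false

open Filter Topology MeasureTheory Real Set

namespace Pool.Agent.Results.MP_52e316_nt.FixedWindowSubconvexity

/-- The data of a standard L-function of `GL(m)`: the conductor `N`, the archimedean parameters `mu j` (the
factor at infinity is `∏ j, Γ_ℝ (s - mu j)`) and the L-function `f` (continued to the complex plane). -/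
structure Datum (m : ℕ) where
  N : ℕ
  mu : Fin m → ℂ
  f : ℂ → ℂ

/-- The analytic conductor `C = N ∏ j, (1 + |mu j|)`. -/
noncomputable def Datum.C {m : ℕ} (D : Datum m) : ℝ := D.N * ∏ j, (1 + ‖D.mu j‖)

/-- The analytic conductor at height `t`, `Q = N ∏ j, (1 + |mu j - i t|)`. -/
noncomputable def Datum.Q {m : ℕ} (D : Datum m) (t : ℝ) : ℝ :=
  D.N * ∏ j, (1 + ‖D.mu j - t * Complex.I‖)

/-- The classical properties: `N ≥ 1`, `Re (mu j) < 1/2`, `∑ j, Im (mu j) = 0` (the normalisation of the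
central character), `f` is entire, of finite order in the strip `-1/4 ≤ Re s ≤ 5/4`, and satisfies the
functional equation `Λ(s) = root N^(1/2-s) conj (Λ(1 - conj s))`, `Λ(s) = f(s) ∏ j, Γ_ℝ (s - mu j)`, with
`|root| = 1` (divided by the gamma factors of both sides). -/
structure Datum.Ok {m : ℕ} (D : Datum m) : Prop where
  N_pos : 0 < D.N
  mu_re : ∀ j, (D.mu j).re < 1 / 2
  im_sum : ∑ j, (D.mu j).im = 0
  entire : Differentiable ℂ D.f
  order : ∃ A : ℝ, ∀ s : ℂ, -1 / 4 ≤ s.re → s.re ≤ 5 / 4 →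
    ‖D.f s‖ ≤ Real.exp (A * (1 + |s.im|) ^ A)
  fe : ∃ root : ℂ, ‖root‖ = 1 ∧ ∀ s : ℂ,
    D.f s * ∏ j, (Complex.Gammaℝ (1 - s - (starRingEnd ℂ) (D.mu j)))⁻¹ =
      root * (D.N : ℂ) ^ (1 / 2 - s) * (starRingEnd ℂ) (D.f (1 - (starRingEnd ℂ) s)) *
        ∏ j, (Complex.Gammaℝ (s - D.mu j))⁻¹

/-- Molteni's bound to the right of the critical strip, uniform in the family. -/
def Molteni {ι : Type} {m : ℕ} (D : ι → Datum m) : Prop := ∀ ε : ℝ, 0 < ε → ∃ B : ℝ, ∀ (i : ι) (s : ℂ),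
  1 + ε ≤ s.re → ‖(D i).f s‖ ≤ B * (D i).C ^ ε

variable {ι : Type}

/-- `|L i (1/2 + iT)| = O(Q^(κ + ε))`, uniformly in the family; `κ = 1/4` is the convexity bound, `κ = 0` is
the Lindelöf hypothesis. -/
def Exponent (L : ι → ℂ → ℂ) (Q : ι → ℝ → ℝ) (κ : ℝ) : Prop :=
  ∀ ε : ℝ, 0 < ε → ∃ B : ℝ, ∀ (i : ι) (T : ℝ), ‖L i (1 / 2 + T * Complex.I)‖ ≤ B * Q i T ^ (κ + ε)

/-- For every `ε > 0`, if `Q i T` is large, the box `|Re s - 1/2| ≤ r`, `T ≤ Im s < T + r` contains at least
`((1 - δ) r / 2π - ε) log Q` zeros of `L i`, counted with multiplicities (`r` is fixed). -/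
def BoxZeros (L : ι → ℂ → ℂ) (Q : ι → ℝ → ℝ) (r δ : ℝ) : Prop := ∀ ε : ℝ, 0 < ε → ∃ X₀ : ℝ,
  ∀ (i : ι) (T : ℝ), X₀ ≤ Q i T → ∃ S : Finset ℂ,
    (∀ s ∈ S, |s.re - 1 / 2| ≤ r ∧ T ≤ s.im ∧ s.im < T + r) ∧
    ((1 - δ) * (r / (2 * Real.pi)) - ε) * Real.log (Q i T) ≤ ∑ s ∈ S, (analyticOrderNatAt (L i) s : ℝ)

/-- For every `ε > 0`, if `Q i T` is large, the disc of radius `r` about `1/2 + iT` contains at least
`(c - ε) log Q` zeros of `L i`, counted with multiplicities (`r` is fixed). -/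
def DiscZeros (L : ι → ℂ → ℂ) (Q : ι → ℝ → ℝ) (r c : ℝ) : Prop := ∀ ε : ℝ, 0 < ε → ∃ X₀ : ℝ,
  ∀ (i : ι) (T : ℝ), X₀ ≤ Q i T → ∃ S : Finset ℂ, (∀ s ∈ S, ‖s - (1 / 2 + T * Complex.I)‖ ≤ r) ∧
    (c - ε) * Real.log (Q i T) ≤ ∑ s ∈ S, (analyticOrderNatAt (L i) s : ℝ)

/-- If `Q i T` is large, the disc of radius `r` about `1/2 + iT` contains at least `l r log Q` points at which
`|L i| ≤ Q^κ`, the ordinates of any two of which differ by at least `η / log Q` (`r` is fixed). -/
def ManySmall (L : ι → ℂ → ℂ) (Q : ι → ℝ → ℝ) (r l η κ : ℝ) : Prop := ∃ X₀ : ℝ,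
  ∀ (i : ι) (T : ℝ), X₀ ≤ Q i T → ∃ S : Finset ℂ,
    (∀ s ∈ S, ‖s - (1 / 2 + T * Complex.I)‖ ≤ r ∧ ‖L i s‖ ≤ Q i T ^ κ) ∧
    (∀ s ∈ S, ∀ s' ∈ S, s ≠ s' → η / Real.log (Q i T) ≤ |s.im - s'.im|) ∧
    l * r * Real.log (Q i T) ≤ S.card

/-- The conclusion for a family `L i` with the conductors `Q i T` at height `T`. -/
def Conclusion (L : ι → ℂ → ℂ) (Q : ι → ℝ → ℝ) : Prop :=
  (∀ r δ : ℝ, 0 < r → r < 1 / 4 → 0 ≤ δ → δ ≤ 1 → BoxZeros L Q r δ →
    Exponent L Q (δ / 4 + (1 - δ) * r * (1 + Real.log (1 / (4 * r))))) ∧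
  (∀ r R c : ℝ, 0 < r → r < R → R ≤ 1 / 2 → 0 ≤ c → DiscZeros L Q r c →
    Exponent L Q (max 0 (1 / 4 - Real.pi * c / (4 * R) * Real.log (R / r)))) ∧
  ∃ c : ℝ, 0 < c ∧
    (∀ r l η κ : ℝ, 0 < r → 0 < l → 0 < η → η ≤ 1 → 0 ≤ κ → κ < 1 / 4 → r ≤ c * η * min l (1 / 4 - κ) →
      ManySmall L Q r l η κ → ∃ B : ℝ, ∀ (i : ι) (T : ℝ),
        ‖L i (1 / 2 + T * Complex.I)‖ ≤ B * Q i T ^ (1 / 4 - min l (1 / 4 - κ) / 8)) ∧
    ((∃ κ : ℝ, 0 ≤ κ ∧ κ < 1 / 4 ∧ Exponent L Q κ) ↔
      ∃ r l η κ : ℝ, 0 < r ∧ 0 < l ∧ 0 < η ∧ η ≤ 1 ∧ 0 ≤ κ ∧ κ < 1 / 4 ∧ r ≤ c * η * min l (1 / 4 - κ) ∧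
        ManySmall L Q r l η κ)

section proofs

open Pool.Agent.H983R4.GL H855R2.SF W587.PL Pool.Agent.TH804.FM

/-- weighted zeros in a disc of fixed radius give a bound -/
theorem exponent_of_weights {L : ι → ℂ → ℂ} {Q : ι → ℝ → ℝ} (H : Fam2 L Q Q) {R w : ℝ} (hR : 0 < R)
    (hR2 : R ≤ 1 / 2) (hw : 0 ≤ w)
    (hZ : ∀ ε : ℝ, 0 < ε → ∃ X₀ : ℝ, ∀ (i : ι) (T : ℝ), X₀ ≤ Q i T →
      analyticOrderNatAt (L i) (1 / 2 + T * Complex.I) = 0 → ∃ S : Finset ℂ,
        (∀ s ∈ S, ‖s - (1 / 2 + T * Complex.I)‖ ≤ R) ∧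
        (w - ε) * Real.log (Q i T) ≤ ∑ s ∈ S, (analyticOrderNatAt (L i) s : ℝ) *
            Real.log (R / ‖s - (1 / 2 + T * Complex.I)‖)) :
    Exponent L Q (max 0 (1 / 4 - Real.pi * w / (4 * R))) := by
  have hpi := Real.pi_pos
  obtain ⟨mQ, hmQ, hQs⟩ := H.Qs
  obtain ⟨c₀, hc₀, hc₀1, hlw⟩ := Pool.Agent.TH804.FM.law H
  intro ε' hε'
  set ε : ℝ := min ε' 1 with hεd
  have hε0 : 0 < ε := lt_min hε' one_pos
  have hε1 : ε ≤ 1 := min_le_right _ _
  have hεε' : ε ≤ ε' := min_le_left _ _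
  obtain ⟨W, X₁, hW, hX₁, hlz⟩ := hlw ε hε0 hε1
  set ε₂ : ℝ := ε * R / (2 * Real.pi) with hε₂
  have hε₂0 : 0 < ε₂ := by positivity
  obtain ⟨X₂, hS⟩ := hZ ε₂ hε₂0
  set QW : ℝ := (2 + W) ^ mQ with hQW
  have hQW1 : 1 ≤ QW := Real.one_le_rpow (by linarith) hmQ
  have hlQ : 0 ≤ Real.log QW := Real.log_nonneg hQW1
  have hb1 := abs_nonneg X₂
  set κ : ℝ := max 0 (1 / 4 - Real.pi * w / (4 * R)) with hκ
  have hκ0 : 0 ≤ κ := le_max_left _ _
  have hκ1 : 1 / 4 - Real.pi * w / (4 * R) ≤ κ := le_max_right _ _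
  set K : ℝ := Real.pi / R * w * Real.log QW with hK
  have hK0 : 0 ≤ K := by positivity
  obtain ⟨B, hB⟩ := bound_of_large H hε'.le (M := fun i T => Q i T ^ κ)
    (fun i T => Real.one_le_rpow (H.Q1 i T) hκ0)
    (X₃ := X₁ + QW * (1 + |X₂|) + Real.exp (Real.log QW + K / ε' + 1)) (fun i T hX => by
      have hb3 := Real.exp_pos (Real.log QW + K / ε' + 1)
      have hQ1 := H.Q1 i T
      have hQp : 0 < Q i T := by linarith
      have hPX : 0 ≤ QW * (1 + |X₂|) := by positivity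
      set ℓ : ℝ := Real.log (Q i T) with hℓ
      have hΛ1 : Real.log QW + K / ε' + 1 ≤ ℓ := by
        rw [hℓ, Real.le_log_iff_exp_le hQp]
        linarith
      have hKε : 0 ≤ K / ε' := by positivity
      have hℓ0 : 0 < ℓ := by linarith
      have hKΛ : K ≤ ε' * ℓ := by
        have h1 : K / ε' ≤ ℓ := by linarith
        rw [div_le_iff₀ hε'] at h1
        linarith
      set V : ℝ := ‖L i (1 / 2 + T * Complex.I)‖ with hV
      show V ≤ Q i T ^ ε' * Q i T ^ κ
      have hXε' : 1 ≤ Q i T ^ ε' := Real.one_le_rpow hQ1 hε'.le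
      have hQδ : 1 ≤ Q i T ^ κ := Real.one_le_rpow hQ1 hκ0
      rcases le_or_gt V 1 with hVs | hVl
      · exact hVs.trans (one_le_mul_of_one_le_of_one_le hXε' hQδ)
      have hV1 : 1 ≤ V := hVl.le
      have hV0 : 0 < V := by linarith
      obtain ⟨hpos, T₀, hT₀, hLT₀, -, hlaw, -⟩ := hlz i T (by linarith) hV1
      rw [← hV] at hLT₀
      have hw0 : analyticOrderNatAt (L i) (1 / 2 + T₀ * Complex.I) = 0 := by
        have h1 : L i (1 / 2 + T₀ * Complex.I) ≠ 0 := by
          intro h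
          rw [h, norm_zero] at hLT₀
          linarith
        by_contra h2
        exact h1 (apply_eq_zero_of_analyticOrderNatAt_ne_zero h2)
      have hQ'' : Q i T ≤ QW * Q i T₀ := by
        have h1 := hQs i T₀ (T - T₀)
        rw [add_sub_cancel] at h1
        refine h1.trans (mul_le_mul_of_nonneg_right ?_ (by linarith [H.Q1 i T₀]))
        exact Real.rpow_le_rpow (by positivity) (by rw [abs_sub_comm]; linarith) hmQ
      have hQ' : Q i T₀ ≤ QW * Q i T := by
        have h1 := hQs i T (T₀ - T)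
        rw [add_sub_cancel] at h1
        refine h1.trans (mul_le_mul_of_nonneg_right ?_ hQp.le)
        exact Real.rpow_le_rpow (by positivity) (by linarith) hmQ
      have hQ01 := H.Q1 i T₀
      have hX₂ : X₂ ≤ Q i T₀ := by
        have h1 : QW * (1 + |X₂|) ≤ QW * Q i T₀ := by linarith
        have h2 := le_of_mul_le_mul_left h1 (by linarith)
        linarith [le_abs_self X₂]
      have hlogQ : ℓ - Real.log QW ≤ Real.log (Q i T₀) := by
        have h1 := Real.log_le_log hQp hQ''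
        rw [Real.log_mul (by linarith) (by linarith)] at h1
        linarith
      have hlogQ' : Real.log (Q i T₀) ≤ 2 * ℓ := by
        have h1 := Real.log_le_log (by linarith) hQ'
        rw [Real.log_mul (by linarith) hQp.ne'] at h1
        linarith
      obtain ⟨S, hS1, hS3⟩ := hS i T₀ hX₂ hw0
      have hl := hlaw R hR hR2 S hS1
      have hDD : DD L Q Q i ε T = ℓ - 4 * Real.log V + ε * ℓ := rfl
      rw [hDD] at hl
      have h1 : (w - ε₂) * Real.log (Q i T₀) ≤ R / Real.pi * (ℓ - 4 * Real.log V + ε * ℓ) := hS3.trans hl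
      have h2 : w * (ℓ - Real.log QW) ≤ w * Real.log (Q i T₀) := mul_le_mul_of_nonneg_left hlogQ hw
      have h3 : ε₂ * Real.log (Q i T₀) ≤ ε₂ * (2 * ℓ) := mul_le_mul_of_nonneg_left hlogQ' hε₂0.le
      have h4 : w * (ℓ - Real.log QW) - ε₂ * (2 * ℓ) ≤ R / Real.pi * (ℓ - 4 * Real.log V + ε * ℓ) := by
        linarith
      have h5 : Real.pi / R * (w * (ℓ - Real.log QW) - ε₂ * (2 * ℓ)) ≤ ℓ - 4 * Real.log V + ε * ℓ := by
        have h6 := mul_le_mul_of_nonneg_left h4 (by positivity : 0 ≤ Real.pi / R)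
        have e : Real.pi / R * (R / Real.pi * (ℓ - 4 * Real.log V + ε * ℓ)) =
            ℓ - 4 * Real.log V + ε * ℓ := by field_simp
        rwa [e] at h6
      have h6 : Real.pi / R * (w * (ℓ - Real.log QW) - ε₂ * (2 * ℓ)) =
          Real.pi * w / R * ℓ - K - ε * ℓ := by
        rw [hK, hε₂]; field_simp
      rw [h6] at h5
      have h8 : ε * ℓ ≤ ε' * ℓ := mul_le_mul_of_nonneg_right hεε' hℓ0.le
      have h9 : Real.log V ≤ ε' * ℓ + κ * ℓ := by
        have h10 : (1 / 4 - Real.pi * w / (4 * R)) * ℓ ≤ κ * ℓ :=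
          mul_le_mul_of_nonneg_right hκ1 hℓ0.le
        have e : (1 / 4 - Real.pi * w / (4 * R)) * ℓ = (ℓ - Real.pi * w / R * ℓ) / 4 := by
          field_simp
        rw [e] at h10
        linarith
      calc V ≤ Real.exp (ε' * ℓ + κ * ℓ) := (Real.log_le_iff_le_exp hV0).1 h9
        _ = Q i T ^ ε' * Q i T ^ κ := by
            rw [Real.exp_add, Real.rpow_def_of_pos hQp, Real.rpow_def_of_pos hQp]
            congr 2 <;> ring)
  refine ⟨B, fun i T => (hB i T).trans (le_of_eq ?_)⟩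
  have hQp : 0 < Q i T := by linarith [H.Q1 i T]
  show B * Q i T ^ ε' * Q i T ^ κ = B * Q i T ^ (κ + ε')
  rw [mul_assoc, ← Real.rpow_add hQp, add_comm]

theorem log_ratio {r R : ℝ} (hr : 0 < r) {z z₀ : ℂ} (hz : z ≠ z₀) (hzr : ‖z - z₀‖ ≤ r) (hR : 0 < R) :
    Real.log (R / r) ≤ Real.log (R / ‖z - z₀‖) := by
  have h1 : 0 < ‖z - z₀‖ := norm_pos_iff.2 (sub_ne_zero.2 hz)
  apply Real.log_le_log (by positivity)
  exact div_le_div_of_nonneg_left hR.le h1 hzr

/-- zeros in discs of fixed radius -/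
theorem exponent_of_discs {L : ι → ℂ → ℂ} {Q : ι → ℝ → ℝ} (H : Fam2 L Q Q) {r R c : ℝ} (hr : 0 < r)
    (hrR : r < R) (hR2 : R ≤ 1 / 2) (hc : 0 ≤ c) (hZ : DiscZeros L Q r c) :
    Exponent L Q (max 0 (1 / 4 - Real.pi * c / (4 * R) * Real.log (R / r))) := by
  have hR : 0 < R := hr.trans hrR
  have hl : 0 < Real.log (R / r) := Real.log_pos (by rwa [lt_div_iff₀ hr, one_mul])
  have h := exponent_of_weights H hR hR2 (w := c * Real.log (R / r)) (by positivity) (fun ε hε => by
    obtain ⟨X₀, hX₀⟩ := hZ (ε / Real.log (R / r)) (by positivity)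
    refine ⟨X₀, fun i T hX hord => ?_⟩
    obtain ⟨S, hS1, hS2⟩ := hX₀ i T hX
    refine ⟨S, fun s hs => (hS1 s hs).trans hrR.le, ?_⟩
    have h1 := mul_le_mul_of_nonneg_right hS2 hl.le
    refine le_trans (le_of_eq ?_) (h1.trans ?_)
    · field_simp
    · rw [Finset.sum_mul]
      apply Finset.sum_le_sum
      intro s hs
      rcases eq_or_ne s (1 / 2 + T * Complex.I) with h0 | h0
      · rw [h0, hord]; simp
      · exact mul_le_mul_of_nonneg_left (log_ratio hr h0 (hS1 s hs) hR) (Nat.cast_nonneg _))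
  have e : Real.pi * (c * Real.log (R / r)) / (4 * R) = Real.pi * c / (4 * R) * Real.log (R / r) := by ring
  rwa [e] at h

/-- a lower bound for a sum of logarithms -/
theorem sum_log_ge {x : ℝ} {n : ℕ} (hn : 2 ≤ n) (h1 : (n : ℝ) ≤ x) (h2 : x ≤ n + 1) :
    x - 2 - 2 * Real.log (x / 2) ≤ ∑ j ∈ Finset.Icc 2 n, Real.log (x / j) := by
  have hn0 : (2 : ℝ) ≤ n := by exact_mod_cast hn
  have hx0 : 0 < x := by linarith
  -- logarithm of the factorial
  have hfac : ∀ n : ℕ, 2 ≤ n → ∑ j ∈ Finset.Icc 2 n, Real.log j ≤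
      (n + 1) * Real.log n - n + 2 - 2 * Real.log 2 := by
    intro n hn
    induction n, hn using Nat.le_induction with
    | base => simp; linarith
    | succ k hk ih =>
      rw [Finset.sum_Icc_succ_top (by omega)]
      have hk0 : (0 : ℝ) < k := by positivity
      have h3 : 1 ≤ (k + 1) * (Real.log ((k : ℝ) + 1) - Real.log k) := by
        rw [← Real.log_div (by positivity) hk0.ne']
        have h4 := Real.one_sub_inv_le_log_of_pos (x := ((k : ℝ) + 1) / k) (by positivity)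
        have h5 : 1 - (((k : ℝ) + 1) / k)⁻¹ = 1 / (k + 1) := by field_simp; ring
        rw [h5] at h4
        have h6 := mul_le_mul_of_nonneg_left h4 (by positivity : (0 : ℝ) ≤ k + 1)
        have h7 : ((k : ℝ) + 1) * (1 / (k + 1)) = 1 := by field_simp
        linarith
      push_cast
      linarith
  have hsum : ∑ j ∈ Finset.Icc 2 n, Real.log (x / j) =
      ((n : ℝ) - 1) * Real.log x - ∑ j ∈ Finset.Icc 2 n, Real.log j := by
    rw [Finset.sum_congr rfl (g := fun j : ℕ => Real.log x - Real.log j) (fun j hj => by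
      have hj2 : 2 ≤ j := (Finset.mem_Icc.1 hj).1
      have : (j : ℝ) ≠ 0 := by positivity
      rw [Real.log_div hx0.ne' this])]
    rw [Finset.sum_sub_distrib, Finset.sum_const, Nat.card_Icc]
    have : ((n + 1 - 2 : ℕ) : ℝ) = (n : ℝ) - 1 := by
      rw [Nat.cast_sub (by omega)]; push_cast; ring
    rw [nsmul_eq_mul, this]
  rw [hsum, Real.log_div hx0.ne' two_ne_zero]
  have h4 := hfac n hn
  have h5 : (x - n) / (n + 1) ≤ Real.log x - Real.log n := by
    rw [← Real.log_div hx0.ne' (by linarith)]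
    have h6 := Real.one_sub_inv_le_log_of_pos (x := x / n) (by positivity)
    refine le_trans ?_ h6
    have h7 : 1 - (x / n)⁻¹ = (x - n) / x := by field_simp
    rw [h7]
    exact div_le_div_of_nonneg_left (by linarith) hx0 h2
  rw [div_le_iff₀ (by positivity)] at h5
  nlinarith

/-- zeros in boxes of fixed size -/
theorem exponent_of_boxes {L : ι → ℂ → ℂ} {Q : ι → ℝ → ℝ} (H : Fam2 L Q Q) {r δ : ℝ} (hr : 0 < r)
    (hr4 : r < 1 / 4) (hδ0 : 0 ≤ δ) (hδ1 : δ ≤ 1) (hZ : BoxZeros L Q r δ) :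
    Exponent L Q (δ / 4 + (1 - δ) * r * (1 + Real.log (1 / (4 * r)))) := by
  classical
  have hpi := Real.pi_pos
  obtain ⟨mQ, hmQ, hQs⟩ := H.Qs
  set x : ℝ := 1 / 2 / r with hx
  have hxr : x * r = 1 / 2 := by rw [hx]; field_simp
  have hx2 : 2 < x := by rw [hx, lt_div_iff₀ hr]; linarith
  have hx0 : 0 < x := by linarith
  set n : ℕ := ⌊x⌋₊ with hn
  have hn2 : 2 ≤ n := Nat.le_floor (by exact_mod_cast hx2.le)
  have hnx : (n : ℝ) ≤ x := Nat.floor_le hx0.le
  have hxn : x ≤ n + 1 := (Nat.lt_floor_add_one x).le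
  set f : ℝ := x - 2 - 2 * Real.log (x / 2) with hf
  have hf0 : 0 ≤ f := by
    have := Real.log_le_sub_one_of_pos (x := x / 2) (by positivity)
    rw [hf]; linarith
  set P : Finset (ℕ × Bool) := (Finset.Icc 2 n) ×ˢ Finset.univ with hP
  set B : ℝ := ∑ p ∈ P, Real.log (x / p.1) with hB
  have hBf : 2 * f ≤ B := by
    have h1 := sum_log_ge hn2 hnx hxn
    rw [hB, hP, Finset.sum_product]
    simp only [Finset.sum_const, Finset.card_univ, Fintype.card_bool, nsmul_eq_mul]
    rw [← Finset.mul_sum]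
    push_cast
    linarith
  have hB0 : 0 ≤ B := by linarith
  set a : ℝ := (1 - δ) * (r / (2 * Real.pi)) with ha
  have ha0 : 0 ≤ a := mul_nonneg (by linarith) (by positivity)
  set m' : ℝ := Real.log ((2 : ℝ) ^ mQ) with hm'
  have h2m : 1 ≤ (2 : ℝ) ^ mQ := Real.one_le_rpow (by norm_num) hmQ
  have hm'0 : 0 ≤ m' := Real.log_nonneg h2m
  have key := exponent_of_weights H (R := 1 / 2) (w := 2 * a * f) (by norm_num) le_rfl (by positivity)
    (fun ε hε => by
      set ε₁ : ℝ := ε / (2 * (B + 1)) with hε₁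
      have hε₁0 : 0 < ε₁ := by positivity
      have hBε : B * ε₁ ≤ ε / 2 := by
        rw [hε₁, ← mul_div_assoc, div_le_div_iff₀ (by positivity) (by norm_num)]
        nlinarith
      obtain ⟨X₀, hX₀⟩ := hZ ε₁ hε₁0
      refine ⟨Real.exp (m' + 2 * B * a * m' / ε) + 2 ^ mQ * (1 + |X₀|), fun i T hX hord => ?_⟩
      have hQ1 := H.Q1 i T
      have hQp : 0 < Q i T := by linarith
      have hexp := Real.exp_pos (m' + 2 * B * a * m' / ε)
      have hPX : 0 ≤ (2 : ℝ) ^ mQ * (1 + |X₀|) := by positivity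
      set ℓ : ℝ := Real.log (Q i T) with hℓ
      have hℓ1 : m' + 2 * B * a * m' / ε ≤ ℓ := by
        rw [hℓ, Real.le_log_iff_exp_le hQp]
        linarith
      set g : ℕ × Bool → ℤ := fun p => if p.2 then (p.1 : ℤ) - 2 else 1 - (p.1 : ℤ) with hg
      have hPm : ∀ p ∈ P, 2 ≤ p.1 ∧ p.1 ≤ n := fun p hp => by
        rw [hP, Finset.mem_product] at hp
        exact Finset.mem_Icc.1 hp.1
      -- the ordinates of the boxes
      have hrange : ∀ p ∈ P, ∀ y : ℝ, T + g p * r ≤ y → y < T + g p * r + r → |y - T| ≤ ((p.1 : ℝ) - 1) * r := by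
        intro p hp y hy1 hy2
        obtain ⟨h2, hn'⟩ := hPm p hp
        have h2' : (2 : ℝ) ≤ p.1 := by exact_mod_cast h2
        rw [abs_le]
        rcases hb : p.2 with _ | _
        · have e : (g p : ℝ) = 1 - p.1 := by simp [hg, hb]
          rw [e] at hy1 hy2
          constructor <;> nlinarith
        · have e : (g p : ℝ) = p.1 - 2 := by simp [hg, hb]
          rw [e] at hy1 hy2
          constructor <;> nlinarith
      have hshift : ∀ p ∈ P, |(g p : ℝ) * r| ≤ 1 := by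
        intro p hp
        have h1 := hrange p hp (T + g p * r) le_rfl (by linarith)
        rw [add_sub_cancel_left] at h1
        have h3 : (p.1 : ℝ) ≤ n := by exact_mod_cast (hPm p hp).2
        have h4 : (p.1 : ℝ) * r ≤ x * r := mul_le_mul_of_nonneg_right (h3.trans hnx) hr.le
        have h5 : ((p.1 : ℝ) - 1) * r = p.1 * r - r := by ring
        rw [h5] at h1
        linarith
      have hQlow : ∀ p ∈ P, Q i T ≤ 2 ^ mQ * Q i (T + g p * r) := by
        intro p hp
        have h1 := hQs i (T + g p * r) (-(g p * r))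
        rw [add_neg_cancel_right, abs_neg] at h1
        refine h1.trans (mul_le_mul_of_nonneg_right ?_ (by linarith [H.Q1 i (T + g p * r)]))
        exact Real.rpow_le_rpow (by positivity) (by linarith [hshift p hp]) hmQ
      have hQup : ∀ p ∈ P, Q i (T + g p * r) ≤ 2 ^ mQ * Q i T := by
        intro p hp
        refine (hQs i T (g p * r)).trans (mul_le_mul_of_nonneg_right ?_ hQp.le)
        exact Real.rpow_le_rpow (by positivity) (by linarith [hshift p hp]) hmQ
      have hex : ∀ p ∈ P, ∃ S : Finset ℂ,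
          (∀ s ∈ S, |s.re - 1 / 2| ≤ r ∧ T + g p * r ≤ s.im ∧ s.im < T + g p * r + r) ∧
          (a - ε₁) * Real.log (Q i (T + g p * r)) ≤ ∑ s ∈ S, (analyticOrderNatAt (L i) s : ℝ) := by
        intro p hp
        refine hX₀ i (T + g p * r) ?_
        have h1 := hQlow p hp
        have h3 : 2 ^ mQ * (1 + |X₀|) ≤ 2 ^ mQ * Q i (T + g p * r) := by linarith
        have h4 := le_of_mul_le_mul_left h3 (by linarith)
        linarith [le_abs_self X₀]
      choose! S hS1 hS2 using hex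
      have hdis : (P : Set (ℕ × Bool)).PairwiseDisjoint S := by
        intro p hp q hq hpq
        rw [Function.onFun, Finset.disjoint_left]
        intro s hs hs'
        obtain ⟨-, h1, h2⟩ := hS1 p hp s hs
        obtain ⟨-, h3, h4⟩ := hS1 q hq s hs'
        apply hpq
        have h5 : ((g p : ℝ) - g q) * r < 1 * r := by linarith
        have h6 : ((g q : ℝ) - g p) * r < 1 * r := by linarith
        have h7 := lt_of_mul_lt_mul_right h5 hr.le
        have h8 := lt_of_mul_lt_mul_right h6 hr.le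
        have h9 : g p < g q + 1 := by exact_mod_cast (by linarith : (g p : ℝ) < g q + 1)
        have h10 : g q < g p + 1 := by exact_mod_cast (by linarith : (g q : ℝ) < g p + 1)
        have h11 : g p = g q := by omega
        have hp' := (hPm p hp).1
        have hq' := (hPm q hq).1
        simp only [hg] at h11
        obtain ⟨p1, p2⟩ := p
        obtain ⟨q1, q2⟩ := q
        cases p2 <;> cases q2 <;> simp at h11 hp' hq' ⊢ <;> omega
      refine ⟨P.biUnion S, fun s hs => ?_, ?_⟩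
      · obtain ⟨p, hp, hs'⟩ := Finset.mem_biUnion.1 hs
        obtain ⟨h1, h2, h3⟩ := hS1 p hp s hs'
        have h4 := hrange p hp s.im h2 h3
        have h5 := Complex.norm_le_abs_re_add_abs_im (s - (1 / 2 + T * Complex.I))
        have e1 : (s - (1 / 2 + T * Complex.I)).re = s.re - 1 / 2 := by simp
        have e2 : (s - (1 / 2 + T * Complex.I)).im = s.im - T := by simp
        rw [e1, e2] at h5
        have h6 : (p.1 : ℝ) ≤ n := by exact_mod_cast (hPm p hp).2
        have h7 : (p.1 : ℝ) * r ≤ x * r := mul_le_mul_of_nonneg_right (h6.trans hnx) hr.le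
        have h8 : ((p.1 : ℝ) - 1) * r = p.1 * r - r := by ring
        rw [h8] at h4
        linarith
      · rw [Finset.sum_biUnion hdis]
        have hstep : ∀ p ∈ P, (a * (ℓ - m') - ε₁ * (ℓ + m')) * Real.log (x / p.1) ≤
            ∑ s ∈ S p, (analyticOrderNatAt (L i) s : ℝ) *
              Real.log (1 / 2 / ‖s - (1 / 2 + T * Complex.I)‖) := by
          intro p hp
          obtain ⟨h2, hn'⟩ := hPm p hp
          have h2' : (2 : ℝ) ≤ p.1 := by exact_mod_cast h2
          have hp0 : (0 : ℝ) < p.1 := by linarith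
          have h3 : (p.1 : ℝ) ≤ n := by exact_mod_cast hn'
          have hβ : 0 ≤ Real.log (x / p.1) := by
            apply Real.log_nonneg
            rw [le_div_iff₀ hp0]
            linarith
          have hlow : ℓ - m' ≤ Real.log (Q i (T + g p * r)) := by
            have h1 := Real.log_le_log hQp (hQlow p hp)
            rw [Real.log_mul (by positivity) (by linarith [H.Q1 i (T + g p * r)])] at h1
            linarith
          have hup : Real.log (Q i (T + g p * r)) ≤ ℓ + m' := by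
            have h1 := Real.log_le_log (by linarith [H.Q1 i (T + g p * r)]) (hQup p hp)
            rw [Real.log_mul (by positivity) hQp.ne'] at h1
            linarith
          have h4 : a * (ℓ - m') - ε₁ * (ℓ + m') ≤ ∑ s ∈ S p, (analyticOrderNatAt (L i) s : ℝ) := by
            refine le_trans ?_ (hS2 p hp)
            have h5 := mul_le_mul_of_nonneg_left hlow ha0
            have h6 := mul_le_mul_of_nonneg_left hup hε₁0.le
            linarith
          refine (mul_le_mul_of_nonneg_right h4 hβ).trans ?_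
          rw [Finset.sum_mul]
          apply Finset.sum_le_sum
          intro s hs
          rcases eq_or_ne s (1 / 2 + T * Complex.I) with h0 | h0
          · rw [h0, hord]; simp
          · obtain ⟨h5, h6, h7⟩ := hS1 p hp s hs
            have h8 := hrange p hp s.im h6 h7
            have h9 := Complex.norm_le_abs_re_add_abs_im (s - (1 / 2 + T * Complex.I))
            have e1 : (s - (1 / 2 + T * Complex.I)).re = s.re - 1 / 2 := by simp
            have e2 : (s - (1 / 2 + T * Complex.I)).im = s.im - T := by simp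
            rw [e1, e2] at h9
            have h10 : ‖s - (1 / 2 + T * Complex.I)‖ ≤ p.1 * r := by
              have : ((p.1 : ℝ) - 1) * r = p.1 * r - r := by ring
              rw [this] at h8
              linarith
            have h11 := log_ratio (by positivity) h0 h10 (by norm_num : (0 : ℝ) < 1 / 2)
            have e3 : (1 : ℝ) / 2 / (p.1 * r) = x / p.1 := by rw [hx]; field_simp
            rw [e3] at h11
            exact mul_le_mul_of_nonneg_left h11 (Nat.cast_nonneg _)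
        refine le_trans ?_ (Finset.sum_le_sum hstep)
        rw [← Finset.mul_sum, ← hB]
        have h1 : 2 * B * a * m' / ε ≤ ℓ - m' := by linarith
        rw [div_le_iff₀ hε] at h1
        have h2 : 0 ≤ a * ℓ * (B - 2 * f) :=
          mul_nonneg (mul_nonneg ha0 (Real.log_nonneg hQ1)) (by linarith)
        have h3 : B * ε₁ * (ℓ + m') ≤ ε / 2 * (ℓ + m') :=
          mul_le_mul_of_nonneg_right hBε (by linarith [Real.log_nonneg hQ1])
        nlinarith)
  have e : max 0 (1 / 4 - Real.pi * (2 * a * f) / (4 * (1 / 2))) =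
      δ / 4 + (1 - δ) * r * (1 + Real.log (1 / (4 * r))) := by
    have e1 : x / 2 = 1 / (4 * r) := by rw [hx]; field_simp; norm_num
    have e2 : Real.pi * (2 * a * f) / (4 * (1 / 2)) = (1 - δ) / 2 * (x * r - 2 * r - 2 * r * Real.log (x / 2)) := by
      rw [ha, hf]; field_simp; ring
    have e3 : 1 / 4 - Real.pi * (2 * a * f) / (4 * (1 / 2)) =
        δ / 4 + (1 - δ) * r * (1 + Real.log (1 / (4 * r))) := by
      rw [e2, hxr, e1]; ring
    rw [e3]
    apply max_eq_right
    have hl : 0 ≤ Real.log (1 / (4 * r)) := by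
      apply Real.log_nonneg
      rw [le_div_iff₀ (by positivity)]
      linarith
    have : 0 ≤ (1 - δ) * r * (1 + Real.log (1 / (4 * r))) :=
      mul_nonneg (mul_nonneg (by linarith) hr.le) (by linarith)
    linarith
  rwa [e] at key

theorem conclusion_of {L : ι → ℂ → ℂ} {Q : ι → ℝ → ℝ} (H : Fam2 L Q Q) : Conclusion L Q := by
  refine ⟨fun r δ hr hr4 h0 h1 hZ => exponent_of_boxes H hr hr4 h0 h1 hZ,
    fun r R c hr hrR hR hc hZ => exponent_of_discs H hr hrR hR hc hZ, ?_⟩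
  obtain ⟨c, hc, hb⟩ := bound_of_manySmall H
  refine ⟨c, hc, hb, ?_, ?_⟩
  · rintro ⟨κ', hκ'0, hκ', hE⟩
    refine ⟨c * 1 * min 1 (1 / 4 - (κ' + 1 / 4) / 2), 1, 1, (κ' + 1 / 4) / 2, ?_, one_pos, one_pos, le_rfl,
      by linarith, by linarith, le_rfl, ?_⟩
    · have : 0 < min (1 : ℝ) (1 / 4 - (κ' + 1 / 4) / 2) := lt_min one_pos (by linarith)
      positivity
    · have h1 : 0 < min (1 : ℝ) (1 / 4 - (κ' + 1 / 4) / 2) := lt_min one_pos (by linarith)
      have h2 := manySmall_of_exponent H (κ := (κ' + 1 / 4) / 2) (κ' := κ')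
        (r := c * 1 * min 1 (1 / 4 - (κ' + 1 / 4) / 2)) (η := 1) hκ'0 (by linarith) (by positivity) one_pos hE
      rw [one_div_one] at h2
      exact h2
  · rintro ⟨r, l, η, κ, hr, hl, hη, hη1, hκ, hκ4, hrle, hM⟩
    obtain ⟨B, hB⟩ := hb r l η κ hr hl hη hη1 hκ hκ4 hrle hM
    have hμ : 0 < min l (1 / 4 - κ) := lt_min hl (by linarith)
    have hμ4 : min l (1 / 4 - κ) ≤ 1 / 4 := (min_le_right _ _).trans (by linarith)
    refine ⟨1 / 4 - min l (1 / 4 - κ) / 8, by linarith, by linarith, fun ε hε => ⟨|B|, fun i T => ?_⟩⟩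
    have hQ1 := H.Q1 i T
    refine (hB i T).trans (mul_le_mul (le_abs_self B) ?_ (Real.rpow_nonneg (by linarith) _) (abs_nonneg B))
    exact Real.rpow_le_rpow_of_exponent_le hQ1 (by linarith)

theorem Datum.C_one {m : ℕ} {D : Datum m} (h : 0 < D.N) : 1 ≤ D.C := by
  have := cond_one_le h D.mu 0
  unfold Datum.C
  simpa using this

theorem Datum.Q_le {m : ℕ} {D : Datum m} (t : ℝ) : D.Q t ≤ (1 + |t|) ^ (m : ℝ) * D.C := by
  have h2 := cond_shift D.N D.mu 0 t
  have e1 : D.N * ∏ j, (1 + ‖D.mu j - ((0 : ℝ) : ℂ) * Complex.I‖) = D.C := by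
    unfold Datum.C; simp
  rw [e1, zero_add] at h2
  exact h2

theorem Datum.C_le {m : ℕ} {D : Datum m} (t : ℝ) : D.C ≤ (1 + |t|) ^ (m : ℝ) * D.Q t := by
  have h2 := cond_shift D.N D.mu t (-t)
  have e1 : D.N * ∏ j, (1 + ‖D.mu j - ((t + -t : ℝ) : ℂ) * Complex.I‖) = D.C := by
    unfold Datum.C; simp
  rw [e1, abs_neg] at h2
  exact h2

/-- the normalisation bounds the height by the analytic conductor at that height -/
theorem Datum.height_le {m : ℕ} (hm : 0 < m) {D : Datum m} (hD : D.Ok) (t : ℝ) : 1 + |t| ≤ D.Q t := by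
  have hex : ∃ j, |t| ≤ |(D.mu j).im - t| := by
    by_contra hcon
    push Not at hcon
    have : Nonempty (Fin m) := ⟨⟨0, hm⟩⟩
    have h1 : |∑ j, ((D.mu j).im - t)| < ∑ j : Fin m, |t| :=
      (Finset.abs_sum_le_sum_abs _ _).trans_lt
        (Finset.sum_lt_sum_of_nonempty Finset.univ_nonempty fun j _ => hcon j)
    rw [Finset.sum_sub_distrib, hD.im_sum, Finset.sum_const, Finset.sum_const, Finset.card_univ,
      Fintype.card_fin, nsmul_eq_mul, nsmul_eq_mul, zero_sub, abs_neg, abs_mul, Nat.abs_cast] at h1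
    exact lt_irrefl _ h1
  obtain ⟨j, hj⟩ := hex
  have h1 : |t| ≤ ‖D.mu j - t * Complex.I‖ := by
    refine hj.trans ?_
    have := Complex.abs_im_le_norm (D.mu j - t * Complex.I)
    simpa using this
  have h2 : 1 + ‖D.mu j - t * Complex.I‖ ≤ ∏ j, (1 + ‖D.mu j - t * Complex.I‖) := by
    classical
    rw [← Finset.mul_prod_erase Finset.univ (fun j => 1 + ‖D.mu j - t * Complex.I‖) (Finset.mem_univ j)]
    refine le_mul_of_one_le_right (by positivity) ?_
    exact Finset.prod_induction _ (fun x => (1 : ℝ) ≤ x) (fun a b ha hb => by nlinarith) le_rfl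
      fun k _ => by linarith [norm_nonneg (D.mu k - t * Complex.I)]
  have h3 : (1 : ℝ) ≤ D.N := by exact_mod_cast hD.N_pos
  have h4 : 0 ≤ ∏ j, (1 + ‖D.mu j - t * Complex.I‖) := Finset.prod_nonneg fun _ _ => by positivity
  unfold Datum.Q
  nlinarith

theorem Datum.X_le {m : ℕ} (hm : 0 < m) {D : Datum m} (hD : D.Ok) (t : ℝ) :
    (1 + |t|) * D.C ≤ D.Q t ^ (m + 2 : ℝ) := by
  have h1 := Datum.height_le hm hD t
  have h2 := Datum.C_le (D := D) t
  have ht : 0 ≤ |t| := abs_nonneg t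
  have hQ : 0 < D.Q t := by linarith
  calc (1 + |t|) * D.C ≤ D.Q t * (D.Q t ^ (m : ℝ) * D.Q t) := by
        refine mul_le_mul h1 (h2.trans ?_) (by linarith [Datum.C_one hD.N_pos]) hQ.le
        exact mul_le_mul_of_nonneg_right (Real.rpow_le_rpow (by positivity) h1 (Nat.cast_nonneg _)) hQ.le
    _ = D.Q t ^ (m + 2 : ℝ) := by
        rw [show (m + 2 : ℝ) = 1 + (m + 1) by ring, Real.rpow_add hQ, Real.rpow_add hQ, Real.rpow_one]

theorem Datum.Q_le' {m : ℕ} {D : Datum m} (h : 0 < D.N) (t : ℝ) :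
    D.Q t ≤ ((1 + |t|) * D.C) ^ (m + 1 : ℝ) := by
  have h1 := Datum.C_one h
  have ht : 1 ≤ 1 + |t| := by linarith [abs_nonneg t]
  refine (Datum.Q_le t).trans ?_
  rw [Real.mul_rpow (by positivity) (by linarith)]
  refine mul_le_mul ?_ ?_ (by linarith) (by positivity)
  · exact Real.rpow_le_rpow_of_exponent_le ht (by linarith)
  · conv_lhs => rw [← Real.rpow_one D.C]
    exact Real.rpow_le_rpow_of_exponent_le h1 (by
      have : (0 : ℝ) ≤ m := Nat.cast_nonneg _
      linarith)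

theorem X_shift {m : ℕ} {D : Datum m} (h : 0 < D.N) (t u : ℝ) :
    (1 + |t + u|) * D.C ≤ (1 + |u|) * ((1 + |t|) * D.C) := by
  have h1 := Datum.C_one h
  have h2 : 1 + |t + u| ≤ (1 + |u|) * (1 + |t|) := by
    have := abs_add_le t u
    nlinarith [abs_nonneg t, abs_nonneg u, mul_nonneg (abs_nonneg t) (abs_nonneg u)]
  calc (1 + |t + u|) * D.C ≤ ((1 + |u|) * (1 + |t|)) * D.C :=
        mul_le_mul_of_nonneg_right h2 (by linarith)
    _ = _ := by ring

theorem right_gl {m : ℕ} {D : ι → Datum m} (hD : ∀ i, (D i).Ok) (hM : Molteni D) :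
    ∀ δ : ℝ, 0 < δ → ∃ B : ℝ, ∀ i (s : ℂ), 1 + δ ≤ s.re →
      ‖(D i).f s‖ ≤ B * ((1 + |s.im|) * (D i).C) ^ δ := by
  intro δ hδ
  obtain ⟨B, hB⟩ := hM δ hδ
  refine ⟨|B|, fun i s hs => ?_⟩
  have h1 := Datum.C_one (hD i).N_pos
  refine (hB i s hs).trans ?_
  have h2 : (D i).C ≤ (1 + |s.im|) * (D i).C := by
    nlinarith [abs_nonneg s.im]
  calc B * (D i).C ^ δ ≤ |B| * (D i).C ^ δ :=
        mul_le_mul_of_nonneg_right (le_abs_self B) (Real.rpow_nonneg (by linarith) _)
    _ ≤ _ := mul_le_mul_of_nonneg_left (Real.rpow_le_rpow (by linarith) h2 hδ.le) (abs_nonneg B)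

theorem refl_gl {m : ℕ} {D : Datum m} (hD : D.Ok) {x t : ℝ} (hx0 : 0 ≤ x) (hx1 : x ≤ 3 / 4) :
    ‖D.f ⟨1 / 2 - x, t⟩‖ ≤ 16 ^ m * D.Q t ^ x * ‖D.f ⟨1 / 2 + x, t⟩‖ := by
  obtain ⟨root, hroot, hfe⟩ := hD.fe
  exact refl_of_fe hD.N_pos D.mu hD.mu_re hroot hfe hx0 hx1

theorem afam_gl {m : ℕ} {D : ι → Datum m} (hD : ∀ i, (D i).Ok) (hM : Molteni D) :
    AFam (m + 1 : ℝ) (fun i => (D i).f) (fun i t => ((1 + |t|) * (D i).C) ^ (m + 1 : ℝ)) where
  m0 := by positivity
  Q1 := by
    intro i t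
    refine Real.one_le_rpow ?_ (by positivity)
    have h1 := Datum.C_one (hD i).N_pos
    nlinarith [abs_nonneg t]
  Qs := by
    intro i t u
    have h1 := Datum.C_one (hD i).N_pos
    rw [← Real.mul_rpow (by positivity) (by positivity)]
    exact Real.rpow_le_rpow (by positivity) (X_shift (hD i).N_pos t u) (by positivity)
  diff := fun i => (hD i).entire
  order := fun i => (hD i).order
  right := by
    intro δ hδ
    obtain ⟨B, hB⟩ := right_gl hD hM δ hδ
    refine ⟨|B|, fun i s hs => ?_⟩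
    have h1 := Datum.C_one (hD i).N_pos
    have h0 : 1 ≤ (1 + |s.im|) * (D i).C := by nlinarith [abs_nonneg s.im]
    refine (hB i s hs).trans ?_
    have h3 : (1 + |s.im|) * (D i).C ≤ ((1 + |s.im|) * (D i).C) ^ (m + 1 : ℝ) := by
      conv_lhs => rw [← Real.rpow_one ((1 + |s.im|) * (D i).C)]
      refine Real.rpow_le_rpow_of_exponent_le h0 ?_
      have : (0 : ℝ) ≤ m := Nat.cast_nonneg _
      linarith
    calc B * ((1 + |s.im|) * (D i).C) ^ δ ≤ |B| * ((1 + |s.im|) * (D i).C) ^ δ :=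
          mul_le_mul_of_nonneg_right (le_abs_self B) (Real.rpow_nonneg (by linarith) _)
      _ ≤ _ := mul_le_mul_of_nonneg_left (Real.rpow_le_rpow (by linarith) h3 hδ.le) (abs_nonneg B)
  refl := by
    refine ⟨16 ^ m, by positivity, fun i x t hx0 hx1 => ?_⟩
    refine (refl_gl (hD i) (t := t) hx0 hx1).trans ?_
    refine mul_le_mul_of_nonneg_right ?_ (norm_nonneg _)
    refine mul_le_mul_of_nonneg_left ?_ (by positivity)
    have h1 := cond_one_le (hD i).N_pos (D i).mu t
    exact Real.rpow_le_rpow (by unfold Datum.Q; linarith) (Datum.Q_le' (hD i).N_pos t) hx0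

theorem fam2_gl {m : ℕ} (hm : 0 < m) {D : ι → Datum m} (hD : ∀ i, (D i).Ok) (hM : Molteni D) :
    Fam2 (fun i => (D i).f) (fun i t => (D i).Q t) (fun i t => (D i).Q t) where
  X1 := fun i t => cond_one_le (hD i).N_pos (D i).mu t
  Q1 := fun i t => cond_one_le (hD i).N_pos (D i).mu t
  Xs := ⟨m, Nat.cast_nonneg _, fun i t u => cond_shift (D i).N (D i).mu t u⟩
  Qs := ⟨m, Nat.cast_nonneg _, fun i t u => cond_shift (D i).N (D i).mu t u⟩
  QX := ⟨1, zero_le_one, fun i t => by rw [Real.rpow_one]⟩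
  diff := fun i => (hD i).entire
  right := by
    intro δ hδ
    have hm2 : (0 : ℝ) < m + 2 := by positivity
    obtain ⟨C₁, hC₁⟩ := hM (δ / (m + 2)) (by positivity)
    refine ⟨|C₁|, fun i s hs => ?_⟩
    have h1 := Datum.C_one (hD i).N_pos
    have h0 : (D i).C ≤ (1 + |s.im|) * (D i).C := by nlinarith [abs_nonneg s.im]
    have hQ : 0 < (D i).Q s.im := by
      have := Datum.height_le hm (hD i) s.im
      linarith [abs_nonneg s.im]
    have h2 : δ / (m + 2) ≤ δ := div_le_self hδ.le (by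
      have : (0 : ℝ) ≤ m := Nat.cast_nonneg _
      linarith)
    refine (hC₁ i s (by linarith)).trans ?_
    refine mul_le_mul (le_abs_self _) ?_ (Real.rpow_nonneg (by linarith) _) (abs_nonneg _)
    calc (D i).C ^ (δ / (m + 2)) ≤ ((D i).Q s.im ^ (m + 2 : ℝ)) ^ (δ / (m + 2)) :=
          Real.rpow_le_rpow (by linarith) (h0.trans (Datum.X_le hm (hD i) s.im)) (by positivity)
      _ = (D i).Q s.im ^ δ := by
          rw [← Real.rpow_mul hQ.le]; congr 1; field_simp
  refl := ⟨16 ^ m, by positivity, fun i x t hx0 hx1 => refl_gl (hD i) hx0 hx1⟩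
  crude := by
    obtain ⟨C, hC, h⟩ := crude (afam_gl hD hM)
    refine ⟨C, (m + 2) * (m + 1), by linarith, by positivity, fun i s hs => ?_⟩
    have hQ : 0 < (D i).Q s.im := by
      have := Datum.height_le hm (hD i) s.im
      linarith [abs_nonneg s.im]
    have h1 := Datum.C_one (hD i).N_pos
    refine (h i s hs).trans (mul_le_mul_of_nonneg_left ?_ (by linarith))
    rw [Real.rpow_mul hQ.le]
    exact Real.rpow_le_rpow (by positivity) (Datum.X_le hm (hD i) s.im) (by positivity)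

theorem fam2_of_afam {m : ℝ} {L : ι → ℂ → ℂ} {Q : ι → ℝ → ℝ} (H : AFam m L Q) : Fam2 L Q Q where
  X1 := H.Q1
  Q1 := H.Q1
  Xs := ⟨m, H.m0, H.Qs⟩
  Qs := ⟨m, H.m0, H.Qs⟩
  QX := ⟨1, zero_le_one, fun i t => by rw [Real.rpow_one]⟩
  diff := H.diff
  right := H.right
  refl := H.refl
  crude := by
    obtain ⟨C, hC, h⟩ := crude H
    exact ⟨C, 1, by linarith, zero_le_one, fun i s hs => by rw [Real.rpow_one]; exact h i s hs⟩

theorem Fam2.comp {ι' : Type} {L : ι → ℂ → ℂ} {X Q : ι → ℝ → ℝ} (H : Fam2 L X Q) (g : ι' → ι) :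
    Fam2 (fun i => L (g i)) (fun i => X (g i)) (fun i => Q (g i)) where
  X1 := fun i => H.X1 (g i)
  Q1 := fun i => H.Q1 (g i)
  Xs := by obtain ⟨m, hm, h⟩ := H.Xs; exact ⟨m, hm, fun i => h (g i)⟩
  Qs := by obtain ⟨m, hm, h⟩ := H.Qs; exact ⟨m, hm, fun i => h (g i)⟩
  QX := by obtain ⟨m, hm, h⟩ := H.QX; exact ⟨m, hm, fun i => h (g i)⟩
  diff := fun i => H.diff (g i)
  right := by intro δ hδ; obtain ⟨B, h⟩ := H.right δ hδ; exact ⟨B, fun i => h (g i)⟩
  refl := by obtain ⟨m, hm, h⟩ := H.refl; exact ⟨m, hm, fun i => h (g i)⟩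
  crude := by obtain ⟨C, B, hC, hB, h⟩ := H.crude; exact ⟨C, B, hC, hB, fun i => h (g i)⟩

end proofs

/-- **Zeros or small values counted at one fixed scale give subconvex bounds.** -/
theorem result :
    (∀ (ι : Type) (m : ℕ) (D : ι → Datum m), 0 < m → (∀ i, (D i).Ok) → Molteni D →
      Conclusion (fun i => (D i).f) (fun i T => (D i).Q T)) ∧
    (∀ (ι : Type) (q : ι → ℕ) [∀ i, NeZero (q i)] (χ : (i : ι) → DirichletCharacter ℂ (q i)),
      (∀ i, 1 < q i ∧ (χ i).IsPrimitive) →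
      Conclusion (fun i => DirichletCharacter.LFunction (χ i)) (fun i T => (q i : ℝ) * (1 + |T|))) := by
  refine ⟨fun ι m D hm hD hM => conclusion_of (fam2_gl hm hD hM), fun ι q _ χ h => conclusion_of ?_⟩
  exact Fam2.comp (fam2_of_afam (H855R2.SF.dir_afam (fun _ _ => True)))
    (fun i => (⟨q i, (h i).1, χ i, (h i).2, trivial⟩ : H855R2.SF.DC (fun _ _ => True)))

end Pool.Agent.Results.MP_52e316_nt.FixedWindowSubconvexity
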