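import Pool.Agent.Y19.QT.ML

/-!
# The Lindelöf bound, with powers of logarithms, for almost all quadratic twists of elliptic curves

`E : y² = x³ + a x + b` is an elliptic curve over `ℚ`, `d` runs through the squarefree integers
(positive or negative), `E_d : y² = x³ + a d² x + b d³` are the twists of `E`, so that
`L(E_d, s + 1/2) = L(s, π ⊗ χ_d)` with the cuspidal automorphic representation `π` of `GL(2)` over `ℚ`
attached to `E` and the quadratic characters `χ_d`. The Grand Lindelöf Hypothesis for `GL(2)` and these
representations says that `L(E_d, 1 + i t) = O(((2 + |t|) |d|)^ε)`. We prove, without any hypothesis, for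
all `E` with `j`-invariant `0` or `1728` and for all quadratic twists of `X₀(11)` and `X₀(14)`, and for
every elliptic curve over `ℚ` whose quadratic twists are modular:

* `∑_{|d| ≤ X} sup_t |L(E_d, 1 + i t)|² / (2 + |t|)^B ≤ C X (log X)^A`;
* for `0 ≤ β` at most `C X^(1 - 2 β) (log X)^A` of the `|d| ≤ X` have `|L(E_d, 1 + i t)| > X^β (2 + |t|)^B`
  for some real `t`;
* for every `k` there is a `k'` such that for all `|d| ≤ X` except `O(X / (log X)^k)` and for all real `t`
  one has `|L(E_d, 1 + i t)| ≤ ((log X) (2 + |t|))^k'`.

The same is proved for the `L`-functions of the `E_d` over an arbitrary multiquadratic field `K` of degree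
`2ⁿ` (these are the products of the `L`-functions of `2ⁿ` twists), with the exponent `2 / 2ⁿ` in place of
`2`. The `L`-functions are taken without the Euler factors at the finitely many bad places.

Method: a large sieve inequality for quadratic characters with a loss of a power of `log X` only, for the
coefficients of the newform, and the functional equations of all the twists.
-/

set_option autoImplicit false

namespace Pool.Agent.Results.MP_52e316_nt.LogPowerTwists

open Pool.Agent.Y19.QT

theorem lindelof_fam {a b : ℤ} (h : Fam a b) : LindelofLaw a b :=
  lindelofLaw_of h.disc h.data.1 h.data.2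

theorem lindelof_modular {a b : ℤ} (hab : 4 * a ^ 3 + 27 * b ^ 2 ≠ 0) (h : TwistsModular a b) :
    LindelofLaw a b :=
  lindelofLaw_of hab (hasTwists_of _ _ hab h) (exists_LFun _ _ hab h)

/-- The bounds of the quality of the Lindelöf hypothesis, with powers of logarithms, for all quadratic
twists of `E : y² = x³ + a x + b` over `ℚ` (`LindelofLaw`), and over all multiquadratic fields, with the
bound for the number of the exceptions (`MultiLindelofLaw`, the case of the field `ℚ` is `n = 0`):
unconditionally for the curves in `Fam` (`j`-invariant `0` or `1728`, twists of `X₀(11)` and `X₀(14)`), and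
for all curves whose quadratic twists are modular. -/
theorem result : (∀ a b : ℤ, Fam a b → LindelofLaw a b ∧ MultiLindelofLaw a b) ∧
    ∀ a b : ℤ, 4 * a ^ 3 + 27 * b ^ 2 ≠ 0 → TwistsModular a b →
      LindelofLaw a b ∧ MultiLindelofLaw a b :=
  ⟨fun _ _ h => ⟨lindelof_fam h, multiLindelof_fam h⟩,
    fun _ _ hab h => ⟨lindelof_modular hab h, multiLindelof_modular hab h⟩⟩

end Pool.Agent.Results.MP_52e316_nt.LogPowerTwists
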