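import Pool.Agent.Y19.QT.ML
import Pool.Agent.V11001.KM.Near
import Pool.Agent.V11153.Shell

/-!
# The Lindelöf bound for all quadratic twists near the powers of almost every number

`E : y² = x³ + a x + b` is an elliptic curve with `j`-invariant `0` or `1728`, or a quadratic twist of `X₀(11)` or
`X₀(14)`, `K = ℚ(√e_1, …, √e_n)` is a multiquadratic field of degree `2ⁿ` (`n = 0` is `K = ℚ`), and `L(E_d/K, s)` are the
`L`-functions over `K` of the quadratic twists `E_d`, `d` squarefree, with centre `s = 1`. Let `ν m / log m → ∞`, for example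
`ν m = m`. For almost every real `x > 1`, for ALL these curves and fields at once, all `θ < 1` and all `ρ > 0` with
`ρ > 2ⁿ θ / 2`, all but finitely many squarefree `d` (positive or negative) with `| |d| - x ^ (ν m) | ≤ x ^ (θ ν m)` for
some `m` satisfy `|L(E_d/K, 1 + i t)| ≤ |d| ^ ρ (2 + |t|) ^ B` for all real `t` at once (`B` depends on `E` and `K`).
-/

set_option autoImplicit false

namespace Pool.Agent.Results.MP_52e316_nt.TwistsNearPowers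

open Complex NumberField Filter
open Pool.Agent.Y19.QT
open Pool.Agent.V11001.KM (Fast Near)

/-- the field generated by square roots of the `e i` -/
noncomputable def MQ {n : ℕ} (e : Fin n → ℤ) : IntermediateField ℚ ℂ :=
  IntermediateField.adjoin ℚ (Set.range fun i => ((e i : ℂ)) ^ ((2 : ℂ)⁻¹))

lemma sq_root (z : ℂ) : (z ^ ((2 : ℂ)⁻¹)) ^ 2 = z := by
  have := Complex.cpow_nat_inv_pow z (n := 2) (by norm_num)
  simpa using this

instance {n : ℕ} (e : Fin n → ℤ) : NumberField (MQ e) where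
  to_charZero := inferInstance
  to_finiteDimensional := by
    unfold MQ
    refine IntermediateField.finiteDimensional_adjoin ?_
    rintro _ ⟨i, rfl⟩
    refine IsIntegral.of_pow (n := 2) (by norm_num) ?_
    rw [sq_root]
    have := isIntegral_algebraMap (R := ℚ) (A := ℂ) (x := ((e i : ℤ) : ℚ))
    simpa using this

/-- the square roots in the field -/
noncomputable def root {n : ℕ} (e : Fin n → ℤ) (i : Fin n) : MQ e :=
  ⟨((e i : ℂ)) ^ ((2 : ℂ)⁻¹), IntermediateField.subset_adjoin ℚ _ ⟨i, rfl⟩⟩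

lemma root_sq {n : ℕ} (e : Fin n → ℤ) (i : Fin n) : root e i ^ 2 = (e i : MQ e) := by
  apply Subtype.ext
  have h1 : ((root e i ^ 2 : MQ e) : ℂ) = (((e i : ℂ)) ^ ((2 : ℂ)⁻¹)) ^ 2 := rfl
  rw [h1, sq_root]
  simp

lemma root_adjoin {n : ℕ} (e : Fin n → ℤ) : IntermediateField.adjoin ℚ (Set.range (root e)) = ⊤ := by
  rw [eq_top_iff]
  rintro ⟨z, hz⟩ -
  have hz' : z ∈ IntermediateField.adjoin ℚ (Set.range fun i => ((e i : ℂ)) ^ ((2 : ℂ)⁻¹)) := hz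
  have key : ∀ w ∈ IntermediateField.adjoin ℚ (Set.range fun i => ((e i : ℂ)) ^ ((2 : ℂ)⁻¹)),
      ∃ u ∈ IntermediateField.adjoin ℚ (Set.range (root e)), (u : ℂ) = w := by
    intro w hw
    induction hw using IntermediateField.adjoin_induction with
    | mem w hw =>
      obtain ⟨i, rfl⟩ := hw
      exact ⟨root e i, IntermediateField.subset_adjoin ℚ _ ⟨i, rfl⟩, rfl⟩
    | algebraMap q =>
      exact ⟨(q : MQ e), by
        have := (IntermediateField.adjoin ℚ (Set.range (root e))).algebraMap_mem q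
        simpa using this, by simp⟩
    | add w w' _ _ h1 h2 =>
      obtain ⟨u, hu, rfl⟩ := h1
      obtain ⟨u', hu', rfl⟩ := h2
      exact ⟨u + u', add_mem hu hu', rfl⟩
    | inv w _ h1 =>
      obtain ⟨u, hu, rfl⟩ := h1
      exact ⟨u⁻¹, inv_mem hu, rfl⟩
    | mul w w' _ _ h1 h2 =>
      obtain ⟨u, hu, rfl⟩ := h1
      obtain ⟨u', hu', rfl⟩ := h2
      exact ⟨u * u', mul_mem hu hu', rfl⟩
  obtain ⟨u, hu, huz⟩ := key z hz'
  have : u = ⟨z, hz⟩ := Subtype.ext huz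
  rwa [← this]

/-- The squarefree `d` for which the `L`-function `F` over `K = ℚ(√e_1, …, √e_n)` of the twist
`E_d : y² = x³ + a d² x + b d³` does not satisfy `|F(1 + i t)| ≤ |d| ^ ρ (2 + |t|) ^ B` for all real `t`. -/
def Large (a b : ℤ) {n : ℕ} (e : Fin n → ℤ) (B : ℕ) (ρ : ℝ) : Set ℤ :=
  {d : ℤ | Squarefree d ∧ ∃ F : ℂ → ℂ, IsLFunK (MQ e) (a * d ^ 2) (b * d ^ 3) (∏ i, e i) F ∧
    ∃ t : ℝ, |(d : ℝ)| ^ ρ * (2 + |t|) ^ B < ‖F (1 + t * I)‖}

lemma one_le_abs {q : ℤ} (hq : Squarefree q) : (1 : ℝ) ≤ |(q : ℝ)| := by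
  have := Int.one_le_abs hq.ne_zero
  exact_mod_cast this

lemma Large.anti {a b : ℤ} {n : ℕ} {e : Fin n → ℤ} {B : ℕ} {ρ ρ' : ℝ} (h : ρ' ≤ ρ) :
    Large a b e B ρ ⊆ Large a b e B ρ' := by
  rintro d ⟨h1, F, h2, t, h3⟩
  refine ⟨h1, F, h2, t, lt_of_le_of_lt ?_ h3⟩
  exact mul_le_mul_of_nonneg_right (Real.rpow_le_rpow_of_exponent_le (one_le_abs h1) h) (by positivity)

lemma fin_int (P : ℤ → Prop) (X : ℝ) : {q : ℤ | P q ∧ |(q : ℝ)| ≤ X}.Finite := by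
  refine (Set.finite_Icc (-⌈X⌉) ⌈X⌉).subset fun q hq => ?_
  have h1 := abs_le.1 hq.2
  have h2 := Int.le_ceil X
  constructor
  · have : (-(⌈X⌉ : ℝ)) ≤ (q : ℝ) := by linarith [h1.1]
    exact_mod_cast this
  · have : (q : ℝ) ≤ (⌈X⌉ : ℝ) := by linarith [h1.2]
    exact_mod_cast this

lemma log_pow_le (A : ℕ) {ε : ℝ} (hε : 0 < ε) : ∃ D : ℝ, 0 ≤ D ∧ ∀ X : ℝ, 1 ≤ X →
    Real.log X ^ A ≤ D * X ^ ε := by
  refine ⟨(((A : ℝ) + 1) / ε) ^ A, by positivity, fun X hN1 => ?_⟩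
  have hN0 : (0 : ℝ) ≤ X := by linarith
  have hlog0 : 0 ≤ Real.log X := Real.log_nonneg hN1
  have h2 : Real.log X ≤ X ^ (ε / (A + 1)) / (ε / (A + 1)) :=
    Real.log_le_rpow_div hN0 (by positivity)
  refine (pow_le_pow_left₀ hlog0 h2 A).trans ?_
  rw [div_pow, ← Real.rpow_natCast (X ^ (ε / (A + 1))) A, ← Real.rpow_mul hN0, div_eq_mul_inv, mul_comm,
    ← inv_pow, inv_div]
  apply mul_le_mul_of_nonneg_left _ (by positivity)
  apply Real.rpow_le_rpow_of_exponent_le hN1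
  have h3 : ε / ((A : ℝ) + 1) * A = ε * (A / (A + 1)) := by ring
  rw [h3]
  have h4 : (A : ℝ) / (A + 1) ≤ 1 := by
    rw [div_le_one (by positivity)]
    linarith
  nlinarith

/-- existence and uniqueness of the `L`-functions, and the count of the twists with large values -/
lemma law {a b : ℤ} (hab : Fam a b) {n : ℕ} {e : Fin n → ℤ} (he : Indep e) :
    (∀ d : ℤ, Squarefree d → ∃! F : ℂ → ℂ, IsLFunK (MQ e) (a * d ^ 2) (b * d ^ 3) (∏ i, e i) F) ∧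
    ∃ B : ℕ, ∀ β ρ : ℝ, 0 ≤ β → 2 * β ≤ 2 ^ n → β < ρ → ∀ ε : ℝ, 0 < ε → ∃ C : ℝ, ∀ X : ℝ, 1 ≤ X →
      {d | d ∈ Large a b e B ρ ∧ |(d : ℝ)| ≤ X}.Finite ∧
      (({d | d ∈ Large a b e B ρ ∧ |(d : ℝ)| ≤ X}.ncard : ℕ) : ℝ) ≤ C * X ^ (1 - 2 * β / 2 ^ n + ε) := by
  classical
  obtain ⟨huniq, hlaw⟩ := multiLindelof_fam hab n e he (MQ e) (root e) (root_sq e) (root_adjoin e)
  refine ⟨huniq, ?_⟩
  choose F hF hF' using huniq
  obtain ⟨⟨C, A, B, -, hcount⟩, -⟩ := hlaw (fun d => if h : Squarefree d then F d h else 0) (by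
    intro d hd
    simp only [hd, dif_pos]
    exact hF d hd)
  refine ⟨B, fun β ρ hβ0 hβ1 hρ ε hε => ?_⟩
  have h2n : (0 : ℝ) < 2 ^ n := by positivity
  have hs0 : 0 ≤ 1 - 2 * β / 2 ^ n := by
    rw [sub_nonneg, div_le_one h2n]
    exact hβ1
  obtain ⟨D, hD, hlog⟩ := log_pow_le A hε
  set σ : ℝ := 1 - 2 * β / 2 ^ n + ε with hσ
  obtain ⟨X1, hX1⟩ : ∃ X1 : ℝ, ∀ X : ℝ, X1 ≤ X → (2 * X) ^ β ≤ X ^ ρ := by
    have h1 : Tendsto (fun X : ℝ => X ^ (ρ - β)) atTop atTop := tendsto_rpow_atTop (by linarith)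
    obtain ⟨X1, h2⟩ := ((h1.eventually_ge_atTop ((2 : ℝ) ^ β)).and (eventually_ge_atTop 1)).exists_forall_of_atTop
    refine ⟨X1, fun X hX => ?_⟩
    obtain ⟨h3, h4⟩ := h2 X hX
    have hX0 : 0 < X := by linarith
    rw [Real.mul_rpow (by norm_num) hX0.le]
    calc (2 : ℝ) ^ β * X ^ β ≤ X ^ (ρ - β) * X ^ β :=
          mul_le_mul_of_nonneg_right h3 (Real.rpow_nonneg hX0.le _)
      _ = X ^ ρ := by
          rw [← Real.rpow_add hX0]
          congr 1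
          ring
  exact Pool.Agent.V11153.Shell.count_shells (Large a b e B ρ) (fun q : ℤ => |(q : ℝ)|)
    (σ := σ) (X0 := max 2 X1) (C := |C| * D * 2 ^ σ) (by linarith) (le_trans (by norm_num) (le_max_left _ _))
    (fun X => fin_int _ X) (by
      intro X hX
      have hX2 : 2 ≤ X := (le_max_left _ _).trans hX
      have hr1 := hX1 X ((le_max_right _ _).trans hX)
      have hX0 : 0 < X := by linarith
      have hN3 : 3 ≤ ⌊2 * X⌋₊ := Nat.le_floor (by norm_num; linarith)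
      have hNX : (⌊2 * X⌋₊ : ℝ) ≤ 2 * X := Nat.floor_le (by linarith)
      have hN1 : (1 : ℝ) ≤ (⌊2 * X⌋₊ : ℝ) := by exact_mod_cast (by omega : 1 ≤ ⌊2 * X⌋₊)
      have hfin : {d | d ∈ Large a b e B ρ ∧ X < |(d : ℝ)| ∧ |(d : ℝ)| ≤ 2 * X}.Finite :=
        (fin_int (fun _ => True) (2 * X)).subset fun d hd => ⟨trivial, hd.2.2⟩
      have h1 := hcount ⌊2 * X⌋₊ β hfin.toFinset hN3 hβ0 (by
        intro d hd
        rw [Set.Finite.mem_toFinset] at hd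
        rw [mem_sqf]
        refine ⟨?_, hd.1.1⟩
        have h2 : d.natAbs ≤ ⌊2 * X⌋₊ := by
          apply Nat.le_floor
          rw [Nat.cast_natAbs, Int.cast_abs]
          exact hd.2.2
        rw [Int.abs_eq_natAbs]
        exact_mod_cast h2) (by
        intro d hd
        rw [Set.Finite.mem_toFinset] at hd
        obtain ⟨⟨hsq, F', hF1, t, ht⟩, hd1, hd2⟩ := hd
        refine ⟨t, ?_⟩
        simp only [hsq, dif_pos]
        rw [← hF' d hsq F' hF1]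
        refine lt_of_le_of_lt ?_ ht
        apply mul_le_mul_of_nonneg_right _ (by positivity)
        calc (⌊2 * X⌋₊ : ℝ) ^ β ≤ (2 * X) ^ β := Real.rpow_le_rpow (by positivity) hNX hβ0
          _ ≤ X ^ ρ := hr1
          _ ≤ |(d : ℝ)| ^ ρ := Real.rpow_le_rpow hX0.le hd1.le (by linarith))
      rw [← Set.ncard_eq_toFinset_card _ hfin] at h1
      refine h1.trans ?_
      have h5 : (⌊2 * X⌋₊ : ℝ) ^ (1 - 2 * β / 2 ^ n) ≤ (2 * X) ^ (1 - 2 * β / 2 ^ n) :=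
        Real.rpow_le_rpow (by positivity) hNX hs0
      have h6 : Real.log (⌊2 * X⌋₊ : ℝ) ^ A ≤ D * (2 * X) ^ ε :=
        (hlog _ hN1).trans (mul_le_mul_of_nonneg_left (Real.rpow_le_rpow (by positivity) hNX hε.le) hD)
      have h7 : 0 ≤ Real.log (⌊2 * X⌋₊ : ℝ) ^ A := pow_nonneg (Real.log_nonneg hN1) A
      calc C * (⌊2 * X⌋₊ : ℝ) ^ (1 - 2 * β / 2 ^ n) * Real.log (⌊2 * X⌋₊ : ℝ) ^ A
          ≤ |C| * (2 * X) ^ (1 - 2 * β / 2 ^ n) * (D * (2 * X) ^ ε) := by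
            apply mul_le_mul _ h6 h7 (by positivity)
            exact mul_le_mul (le_abs_self C) h5 (by positivity) (abs_nonneg C)
        _ = |C| * D * (2 * X) ^ σ := by
            rw [hσ, Real.rpow_add (by linarith : (0 : ℝ) < 2 * X)]
            ring
        _ = |C| * D * 2 ^ σ * X ^ σ := by
            rw [Real.mul_rpow (by norm_num) hX0.le]
            ring)

open Classical in
/-- the exponent of `2 + |t|` -/
noncomputable def expB (a b : ℤ) (n : ℕ) (e : Fin n → ℤ) : ℕ :=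
  if h : Fam a b ∧ Indep e then (law h.1 h.2).2.choose else 0

lemma count {a b : ℤ} (hab : Fam a b) {n : ℕ} {e : Fin n → ℤ} (he : Indep e) :
    ∀ β ρ : ℝ, 0 ≤ β → 2 * β ≤ 2 ^ n → β < ρ → ∀ ε : ℝ, 0 < ε → ∃ C : ℝ, ∀ X : ℝ, 1 ≤ X →
      {d | d ∈ Large a b e (expB a b n e) ρ ∧ |(d : ℝ)| ≤ X}.Finite ∧
      (({d | d ∈ Large a b e (expB a b n e) ρ ∧ |(d : ℝ)| ≤ X}.ncard : ℕ) : ℝ) ≤
        C * X ^ (1 - 2 * β / 2 ^ n + ε) := by
  have h : Fam a b ∧ Indep e := ⟨hab, he⟩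
  have h1 := (law h.1 h.2).2.choose_spec
  have h2 : expB a b n e = (law h.1 h.2).2.choose := by
    unfold expB
    rw [dif_pos h]
  rw [h2]
  exact h1

/-- the sets for the covering theorem -/
def Sets (n : ℕ) (β : ℝ) (j : ℤ × ℤ × (Fin n → ℤ) × ℕ) : Set ℤ :=
  {d | (Fam j.1 j.2.1 ∧ Indep j.2.2.1) ∧
    d ∈ Large j.1 j.2.1 j.2.2.1 (expB j.1 j.2.1 n j.2.2.1) (β + 1 / ((j.2.2.2 : ℝ) + 1))}

lemma sets_count {n : ℕ} {β : ℝ} (hβ0 : 0 ≤ β) (hβ1 : 2 * β ≤ 2 ^ n) (j : ℤ × ℤ × (Fin n → ℤ) × ℕ) (ε : ℝ)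
    (hε : 0 < ε) : ∃ C : ℝ, ∀ X : ℝ, 1 ≤ X → {d | d ∈ Sets n β j ∧ |(d : ℝ)| ≤ X}.Finite ∧
      (({d | d ∈ Sets n β j ∧ |(d : ℝ)| ≤ X}.ncard : ℕ) : ℝ) ≤ C * X ^ (1 - 2 * β / 2 ^ n + ε) := by
  by_cases h : Fam j.1 j.2.1 ∧ Indep j.2.2.1
  · have h1 := count h.1 h.2 β (β + 1 / ((j.2.2.2 : ℝ) + 1)) hβ0 hβ1 (by
      have : (0 : ℝ) < 1 / ((j.2.2.2 : ℝ) + 1) := by positivity
      linarith) ε hε
    have h2 : Sets n β j = Large j.1 j.2.1 j.2.2.1 (expB j.1 j.2.1 n j.2.2.1) (β + 1 / ((j.2.2.2 : ℝ) + 1)) := by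
      ext d
      exact ⟨fun hd => hd.2, fun hd => ⟨h, hd⟩⟩
    rw [h2]
    exact h1
  · have h2 : Sets n β j = ∅ := by
      ext d
      exact ⟨fun hd => absurd hd.1 h, fun hd => absurd hd (Set.notMem_empty d)⟩
    refine ⟨0, fun X hX => ?_⟩
    rw [h2]
    simp

lemma sets_of {n : ℕ} {β ρ : ℝ} {a b : ℤ} (hab : Fam a b) {e : Fin n → ℤ} (he : Indep e) (hρ : β < ρ) :
    ∃ i : ℕ, Large a b e (expB a b n e) ρ ⊆ Sets n β (a, b, e, i) := by
  obtain ⟨j, hj⟩ := exists_nat_ge (1 / (ρ - β))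
  have hjρ : 1 / ((j : ℝ) + 1) ≤ ρ - β := by
    have h1 : 0 < ρ - β := by linarith
    have h2 : 1 / (ρ - β) ≤ (j : ℝ) + 1 := by linarith
    rw [div_le_iff₀ h1] at h2
    rw [div_le_iff₀ (by positivity)]
    linarith
  exact ⟨j, fun d hd => ⟨⟨hab, he⟩, Large.anti (by simp only; linarith) hd⟩⟩

/-- **Theorem.** Let `E : y² = x³ + a x + b` have `j`-invariant `0` or `1728` or be a quadratic twist of `X₀(11)` or
`X₀(14)` (`Fam a b`), let `K = MQ e = ℚ(√e_1, …, √e_n)` with integers `e_i` which are independent modulo squares, and for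
squarefree `d` (positive or negative) let `F` be the (entire) `L`-function over `K` of `E_d : y² = x³ + a d² x + b d³`
without the Euler factors at the places dividing `2 (4a³ + 27b²) d ∏ e_i`; it exists and is unique. There are exponents
`B = B(a, b, n, e)` such that the following holds for all `ν` with `ν m / log m → ∞` and all countable sets `U` of reals.
(1) For `0 ≤ β ≤ 2ⁿ / 2` and `θ < 1` there is a set `S` of Hausdorff dimension at most `(1 - 2 β / 2ⁿ) / (1 - θ)` such that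
for each `x > 1` outside `S`, each positive `y` in `U`, all these curves, all these fields of degree `2ⁿ` and all `ρ > β`,
all but finitely many squarefree `d` with `| |d| - y x ^ (ν m) | ≤ x ^ (θ ν m)` for some `m` satisfy
`|F(1 + i t)| ≤ |d| ^ ρ (2 + |t|) ^ B` for all real `t`.
(2) For almost every real `x > 1` this holds for all these curves and all multiquadratic fields at once, for all `θ < 1`
and all `ρ > 0` with `2 ρ > 2ⁿ θ`. -/
theorem result :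
    (∀ a b : ℤ, Fam a b → ∀ (n : ℕ) (e : Fin n → ℤ), Indep e → ∀ d : ℤ, Squarefree d →
      ∃! F : ℂ → ℂ, IsLFunK (MQ e) (a * d ^ 2) (b * d ^ 3) (∏ i, e i) F) ∧
    ∃ B : ℤ → ℤ → (n : ℕ) → (Fin n → ℤ) → ℕ, ∀ (ν : ℕ → ℝ), Fast ν → ∀ U : Set ℝ, U.Countable →
      (∀ (n : ℕ) (β θ : ℝ), 0 ≤ β → 2 * β ≤ 2 ^ n → θ < 1 →
        ∃ S : Set ℝ, dimH S ≤ ENNReal.ofReal ((1 - 2 * β / 2 ^ n) / (1 - θ)) ∧
          ∀ x : ℝ, 1 < x → x ∉ S → ∀ y ∈ U, 0 < y → ∀ a b : ℤ, Fam a b → ∀ e : Fin n → ℤ, Indep e →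
            ∀ ρ : ℝ, β < ρ → {d : ℤ | d ∈ Large a b e (B a b n e) ρ ∧ Near ν θ y x |(d : ℝ)|}.Finite) ∧
      (∀ᵐ x : ℝ, 1 < x → ∀ y ∈ U, 0 < y → ∀ a b : ℤ, Fam a b → ∀ (n : ℕ) (e : Fin n → ℤ), Indep e →
        ∀ θ ρ : ℝ, θ < 1 → 0 < ρ → 2 ^ n * θ < 2 * ρ →
          {d : ℤ | d ∈ Large a b e (B a b n e) ρ ∧ Near ν θ y x |(d : ℝ)|}.Finite) := by
  classical
  refine ⟨fun a b hab n e he => (law hab he).1, expB, fun ν hν U hU => ⟨fun n β θ hβ0 hβ1 hθ => ?_, ?_⟩⟩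
  · have hs0 : 0 ≤ 1 - 2 * β / 2 ^ n := by
      rw [sub_nonneg, div_le_one (by positivity)]
      exact hβ1
    obtain ⟨S, h1, h2⟩ := Pool.Agent.V11001.KM.family (fun q : ℤ => |(q : ℝ)|) hν hs0 hθ U hU (Sets n β)
      (sets_count hβ0 hβ1)
    refine ⟨S, h1, fun x hx hxS y hy hy0 a b hab e he ρ hρ => ?_⟩
    obtain ⟨i, hi⟩ := sets_of hab he hρ
    refine (h2 x hx hxS y hy hy0 (a, b, e, i)).subset ?_
    rintro d ⟨hd1, hd2⟩
    exact ⟨hi hd1, hd2⟩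
  · have hq : ∀ (n : ℕ) (β : ℚ), ∀ᵐ x : ℝ, 0 ≤ (β : ℝ) → 2 * (β : ℝ) ≤ 2 ^ n → 1 < x →
        ∀ θ : ℝ, θ < 1 - (1 - 2 * (β : ℝ) / 2 ^ n) → ∀ y ∈ U, 0 < y → ∀ j : ℤ × ℤ × (Fin n → ℤ) × ℕ,
          {d | d ∈ Sets n β j ∧ Near ν θ y x |(d : ℝ)|}.Finite := by
      intro n β
      by_cases h : 0 ≤ (β : ℝ) ∧ 2 * (β : ℝ) ≤ 2 ^ n
      · have hs0 : 0 ≤ 1 - 2 * (β : ℝ) / 2 ^ n := by
          rw [sub_nonneg, div_le_one (by positivity)]
          exact h.2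
        filter_upwards [Pool.Agent.V11001.KM.ae_family (fun q : ℤ => |(q : ℝ)|) hν hs0 U hU (Sets n β)
          (sets_count h.1 h.2)] with x hx _ _ hx1
        exact hx hx1
      · exact Eventually.of_forall fun x g1 g2 => absurd ⟨g1, g2⟩ h
    have hall : ∀ᵐ x : ℝ, ∀ (n : ℕ) (β : ℚ), 0 ≤ (β : ℝ) → 2 * (β : ℝ) ≤ 2 ^ n → 1 < x →
        ∀ θ : ℝ, θ < 1 - (1 - 2 * (β : ℝ) / 2 ^ n) → ∀ y ∈ U, 0 < y → ∀ j : ℤ × ℤ × (Fin n → ℤ) × ℕ,
          {d | d ∈ Sets n β j ∧ Near ν θ y x |(d : ℝ)|}.Finite := by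
      rw [MeasureTheory.ae_all_iff]
      intro n
      rw [MeasureTheory.ae_all_iff]
      exact hq n
    filter_upwards [hall] with x hx hx1 y hy hy0 a b hab n e he θ ρ hθ hρ0 hρ
    have h2n : (0 : ℝ) < 2 ^ n := by positivity
    obtain ⟨β, hβ1, hβ2⟩ := exists_rat_btwn (show max 0 (2 ^ n * θ / 2) < min ρ (2 ^ n / 2) from
      max_lt (lt_min hρ0 (by positivity)) (lt_min (by linarith) (by nlinarith)))
    have hβ0 : 0 < (β : ℝ) := (le_max_left _ _).trans_lt hβ1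
    have hβθ : 2 ^ n * θ / 2 < β := (le_max_right _ _).trans_lt hβ1
    have hβρ : (β : ℝ) < ρ := hβ2.trans_le (min_le_left _ _)
    have hβn : (β : ℝ) < 2 ^ n / 2 := hβ2.trans_le (min_le_right _ _)
    obtain ⟨i, hi⟩ := sets_of hab he hβρ
    refine (hx n β hβ0.le (by linarith) hx1 θ ?_ y hy hy0 (a, b, e, i)).subset ?_
    · have h1 : θ < 2 * (β : ℝ) / 2 ^ n := by
        rw [lt_div_iff₀ h2n]
        linarith
      linarith
    · rintro d ⟨hd1, hd2⟩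
      exact ⟨hi hd1, hd2⟩

end Pool.Agent.Results.MP_52e316_nt.TwistsNearPowers
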