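import Pool.Agent.Y19.QT.ML
import Pool.Agent.V11326.WE

/-!
# The Lindelöf bound for all quadratic twists in windows around thin sequences

`E : y² = x³ + a x + b` is an elliptic curve with `j`-invariant `0` or `1728`, or a quadratic twist of `X₀(11)` or
`X₀(14)`, `K` is a multiquadratic field of degree `2ⁿ` (`n = 0` is `K = ℚ`), and `L(E_d/K, s)` are the `L`-functions over
`K` of the quadratic twists `E_d`, `d` squarefree, with centre `s = 1`. Let `v ≥ 1` be a sequence with exponent of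
convergence at most `τ` (for `v_k = b ^ k` it is `0`, for `v_k = k ^ a` it is `1 / a`) and `θ < 1`, `0 ≤ 2 β ≤ 2ⁿ`. For all
`α > 0` outside a set of Hausdorff dimension at most `(1 - 2 β / 2ⁿ + τ) / (1 - θ)`, for each `ρ > β` and all but finitely
many `k`, ALL squarefree `d` (positive or negative) with `| |d| - α v_k | ≤ v_k ^ θ` satisfy
`|L(E_d/K, 1 + i t)| ≤ |d| ^ ρ (2 + |t|) ^ B` for all real `t` at once.
-/

set_option autoImplicit false

namespace Pool.Agent.Results.MP_52e316_nt.WindowsOfTwists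

open Complex NumberField
open Pool.Agent.Y19.QT

/-- the exponent of convergence of the sequence `v` is at most `τ` -/
def ExpLe (v : ℕ → ℝ) (τ : ℝ) : Prop := ∀ t : ℝ, τ < t → Summable (fun n : ℕ => (v n) ^ (-t))

lemma fin_int (P : ℤ → Prop) (X : ℝ) : {q : ℤ | P q ∧ |(q : ℝ)| ≤ X}.Finite := by
  refine (Set.finite_Icc (-⌈X⌉) ⌈X⌉).subset fun q hq => ?_
  have h1 := abs_le.1 hq.2
  have h2 := Int.le_ceil X
  constructor
  · have : (-(⌈X⌉ : ℝ)) ≤ (q : ℝ) := by linarith [h1.1]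
    exact_mod_cast this
  · have : (q : ℝ) ≤ (⌈X⌉ : ℝ) := by linarith [h1.2]
    exact_mod_cast this

lemma log_pow_le (A : ℕ) {ε : ℝ} (hε : 0 < ε) : ∃ D : ℝ, 0 ≤ D ∧ ∀ N : ℕ, 3 ≤ N →
    Real.log (N : ℝ) ^ A ≤ D * (N : ℝ) ^ ε := by
  refine ⟨(((A : ℝ) + 1) / ε) ^ A, by positivity, fun N hN => ?_⟩
  have hN1 : (1 : ℝ) ≤ N := by exact_mod_cast (by omega : 1 ≤ N)
  have hN0 : (0 : ℝ) ≤ N := by linarith
  have hlog0 : 0 ≤ Real.log (N : ℝ) := Real.log_nonneg hN1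
  have h2 : Real.log (N : ℝ) ≤ (N : ℝ) ^ (ε / (A + 1)) / (ε / (A + 1)) :=
    Real.log_le_rpow_div hN0 (by positivity)
  refine (pow_le_pow_left₀ hlog0 h2 A).trans ?_
  rw [div_pow, ← Real.rpow_natCast ((N : ℝ) ^ (ε / (A + 1))) A, ← Real.rpow_mul hN0, div_eq_mul_inv, mul_comm,
    ← inv_pow, inv_div]
  apply mul_le_mul_of_nonneg_left _ (by positivity)
  apply Real.rpow_le_rpow_of_exponent_le hN1
  have h3 : ε / ((A : ℝ) + 1) * A = ε * (A / (A + 1)) := by ring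
  rw [h3]
  have h4 : (A : ℝ) / (A + 1) ≤ 1 := by
    rw [div_le_one (by positivity)]
    linarith
  nlinarith

/-- **Theorem.** Let `E : y² = x³ + a x + b` have `j`-invariant `0` or `1728` or be a quadratic twist of `X₀(11)` or
`X₀(14)` (`Fam a b`), let `K` be a number field generated by square roots `x_i` of `n` integers `e_i` which are independent
modulo squares, and for squarefree `d` (positive or negative) let `F_d` be the (entire) `L`-function over `K` of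
`E_d : y² = x³ + a d² x + b d³` without the Euler factors at the places dividing `2 (4a³ + 27b²) d ∏ e_i`. There is `B` such
that for all `0 ≤ β ≤ 2ⁿ / 2`, all sequences `v ≥ 1` of exponent of convergence at most `τ ≥ 0` and all `θ < 1` there is a
set `E` of Hausdorff dimension at most `(1 - 2 β / 2ⁿ + τ) / (1 - θ)` such that for each `α > 0` outside `E`, each
`ρ > β`, all but finitely many `k` and ALL squarefree `d` with `| |d| - α v_k | ≤ v_k ^ θ` one has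
`|F_d(1 + i t)| ≤ |d| ^ ρ (2 + |t|) ^ B` for all real `t`. The sequences `v_k = (k + 1) ^ a` and `v_k = b ^ k` have exponent
of convergence at most `1 / a` and `0`. -/
theorem result :
    (∀ a b : ℤ, Fam a b →
      ∀ (n : ℕ) (e : Fin n → ℤ), Indep e → ∀ (K : Type) [Field K] [NumberField K] (x : Fin n → K),
      (∀ i, x i ^ 2 = (e i : K)) → IntermediateField.adjoin ℚ (Set.range x) = ⊤ →
      (∀ d : ℤ, Squarefree d → ∃! F : ℂ → ℂ, IsLFunK K (a * d ^ 2) (b * d ^ 3) (∏ i, e i) F) ∧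
      ∀ F : ℤ → ℂ → ℂ, (∀ d : ℤ, Squarefree d → IsLFunK K (a * d ^ 2) (b * d ^ 3) (∏ i, e i) (F d)) →
      ∃ B : ℕ, ∀ β : ℝ, 0 ≤ β → 2 * β ≤ 2 ^ n → ∀ (v : ℕ → ℝ) (τ θ : ℝ), (∀ k, 1 ≤ v k) → 0 ≤ τ → ExpLe v τ →
      θ < 1 → ∃ E : Set ℝ, dimH E ≤ ENNReal.ofReal ((1 - 2 * β / 2 ^ n + τ) / (1 - θ)) ∧
        ∀ α : ℝ, 0 < α → α ∉ E → ∀ ρ : ℝ, β < ρ → ∃ k₀ : ℕ, ∀ k : ℕ, k₀ ≤ k → ∀ d : ℤ, Squarefree d →
          |(|(d : ℝ)|) - α * v k| ≤ (v k) ^ θ →
          ∀ t : ℝ, ‖F d (1 + t * I)‖ ≤ |(d : ℝ)| ^ ρ * (2 + |t|) ^ B) ∧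
    (∀ a : ℝ, 0 < a → ExpLe (fun n : ℕ => ((n : ℝ) + 1) ^ a) (1 / a)) ∧
    (∀ b : ℝ, 1 < b → ExpLe (fun n : ℕ => b ^ n) 0) := by
  classical
  refine ⟨fun a b hab n e he K _ _ x hx hK => ?_, fun κ hκ => Pool.Agent.Y854.GM.expLe_pow κ hκ,
    fun b hb => Pool.Agent.Y854.GM.expLe_geom b hb⟩
  obtain ⟨huniq, hlaw⟩ := multiLindelof_fam hab n e he K x hx hK
  refine ⟨huniq, fun F hF => ?_⟩
  obtain ⟨⟨C, A, B, -, hcount⟩, -⟩ := hlaw F hF
  refine ⟨B, fun β hβ0 hβ1 v τ θ hv hτ hE hθ1 => ?_⟩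
  have h2n : (0 : ℝ) < 2 ^ n := by positivity
  have hs0 : 0 ≤ 1 - 2 * β / 2 ^ n := by
    rw [sub_nonneg, div_le_one h2n]
    exact hβ1
  obtain ⟨E, hE1, hE2⟩ := Pool.Agent.V11326.WE.windowsExp (T := ℤ)
    (fun Z => {d : ℤ | Squarefree d ∧ ∃ t : ℝ, Z * (2 + |t|) ^ B < ‖F d (1 + t * I)‖}) (fun d => |(d : ℝ)|)
    hv hτ hE hs0 hθ1 hβ0 (by
      rintro Y Z hYZ d ⟨h1, t, ht⟩
      refine ⟨h1, t, lt_of_le_of_lt ?_ ht⟩
      exact mul_le_mul_of_nonneg_right hYZ (by positivity)) (by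
      intro ε hε
      obtain ⟨D, hD, hlog⟩ := log_pow_le A hε
      refine ⟨|C| * D, 4, fun X hX => ⟨fin_int _ _, ?_⟩⟩
      have hX0 : 0 ≤ X := by linarith
      have hN3 : 3 ≤ ⌊X⌋₊ := Nat.le_floor (by norm_num; linarith)
      have hNX : (⌊X⌋₊ : ℝ) ≤ X := Nat.floor_le hX0
      have hN1 : (1 : ℝ) ≤ (⌊X⌋₊ : ℝ) := by exact_mod_cast (by omega : 1 ≤ ⌊X⌋₊)
      have hfin := fin_int (fun d => d ∈ {d : ℤ | Squarefree d ∧
        ∃ t : ℝ, X ^ β * (2 + |t|) ^ B < ‖F d (1 + t * I)‖}) X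
      have h1 := hcount ⌊X⌋₊ β hfin.toFinset hN3 hβ0 (by
        intro d hd
        rw [Set.Finite.mem_toFinset] at hd
        rw [mem_sqf]
        refine ⟨?_, hd.1.1⟩
        have h2 : d.natAbs ≤ ⌊X⌋₊ := by
          apply Nat.le_floor
          rw [Nat.cast_natAbs, Int.cast_abs]
          exact hd.2
        rw [Int.abs_eq_natAbs]
        exact_mod_cast h2) (by
        intro d hd
        rw [Set.Finite.mem_toFinset] at hd
        obtain ⟨⟨-, t, ht⟩, -⟩ := hd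
        refine ⟨t, lt_of_le_of_lt ?_ ht⟩
        apply mul_le_mul_of_nonneg_right _ (by positivity)
        exact Real.rpow_le_rpow (by positivity) hNX hβ0)
      rw [← Set.ncard_eq_toFinset_card _ hfin] at h1
      refine h1.trans ?_
      have h5 : (⌊X⌋₊ : ℝ) ^ (1 - 2 * β / 2 ^ n) ≤ X ^ (1 - 2 * β / 2 ^ n) := Real.rpow_le_rpow (by positivity) hNX hs0
      have h6 : Real.log (⌊X⌋₊ : ℝ) ^ A ≤ D * X ^ ε :=
        (hlog _ hN3).trans (mul_le_mul_of_nonneg_left (Real.rpow_le_rpow (by positivity) hNX hε.le) hD)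
      have h7 : 0 ≤ Real.log (⌊X⌋₊ : ℝ) ^ A := pow_nonneg (Real.log_nonneg hN1) A
      calc C * (⌊X⌋₊ : ℝ) ^ (1 - 2 * β / 2 ^ n) * Real.log (⌊X⌋₊ : ℝ) ^ A
          ≤ |C| * X ^ (1 - 2 * β / 2 ^ n) * (D * X ^ ε) := by
            apply mul_le_mul _ h6 h7 (by positivity)
            exact mul_le_mul (le_abs_self C) h5 (by positivity) (abs_nonneg C)
        _ = |C| * D * X ^ (1 - 2 * β / 2 ^ n + ε) := by
            rw [Real.rpow_add (by linarith)]
            ring)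
  refine ⟨E, hE1, fun α hα hαE ρ hρ => ?_⟩
  obtain ⟨k₀, hk⟩ := hE2 α hα hαE ρ hρ
  refine ⟨k₀, fun k hkk d hd hw t => ?_⟩
  by_contra hcon
  push Not at hcon
  exact hk k hkk d hw ⟨hd, t, hcon⟩

end Pool.Agent.Results.MP_52e316_nt.WindowsOfTwists
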